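import Mathlib
import Pool.Agent.Lib_helper38.XA.Defs

/-! XA (MP_e5d384_lc), block K4a (helper67): Fourier transforms of indicator functions -/

set_option autoImplicit false

namespace Pool.Agent.XA

open Finset Filter Pool.Agent.XO

variable {V : Type} [AddCommGroup V] [Fintype V] [DecidableEq V]

/-- `H` is the Fourier transform of the indicator function of a set -/
structure IF (H : V → ℂ) : Prop where
  conv : ∀ g, ∑ c, H c * H (g - c) = H g
  conj : ∀ c, H (-c) = (starRingEnd ℂ) (H c)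

theorem if_density {H : V → ℂ} (hH : IF H) :
    ∃ β : ℝ, H 0 = β ∧ 0 ≤ β ∧ β ≤ 1 ∧ ∑ c, ‖H c‖ ^ 2 = β ∧ ∀ c, ‖H c‖ ≤ β := by
  have h0 : H 0 = ((∑ c, ‖H c‖ ^ 2 : ℝ) : ℂ) := by
    rw [← hH.conv 0]
    push_cast
    refine sum_congr rfl fun c _ => ?_
    rw [zero_sub, hH.conj, Complex.mul_conj, Complex.normSq_eq_norm_sq]
    push_cast
    rfl
  have hn : 0 ≤ ∑ c, ‖H c‖ ^ 2 := sum_nonneg fun c _ => by positivity
  have hC : ∀ c, ‖H c‖ ≤ ∑ c, ‖H c‖ ^ 2 := by
    intro c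
    rw [← hH.conv c]
    have e1 : ‖∑ d, H d * H (c - d)‖ ≤ ∑ d, ‖H d‖ * ‖H (c - d)‖ :=
      (norm_sum_le _ _).trans (le_of_eq (sum_congr rfl fun d _ => norm_mul _ _))
    have e2 : ∑ d, ‖H (c - d)‖ ^ 2 = ∑ d, ‖H d‖ ^ 2 :=
      Equiv.sum_comp (Equiv.subLeft c) (fun d => ‖H d‖ ^ 2)
    have e3 : ∀ d, ‖H d‖ * ‖H (c - d)‖ ≤ (‖H d‖ ^ 2 + ‖H (c - d)‖ ^ 2) / 2 := by
      intro d
      nlinarith [sq_nonneg (‖H d‖ - ‖H (c - d)‖)]
    calc ‖∑ d, H d * H (c - d)‖ ≤ ∑ d, ‖H d‖ * ‖H (c - d)‖ := e1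
      _ ≤ ∑ d, (‖H d‖ ^ 2 + ‖H (c - d)‖ ^ 2) / 2 := sum_le_sum fun d _ => e3 d
      _ = ∑ d, ‖H d‖ ^ 2 := by
          rw [← sum_div, sum_add_distrib, e2]
          ring
  refine ⟨∑ c, ‖H c‖ ^ 2, h0, hn, ?_, rfl, hC⟩
  have h1 := hC 0
  rw [h0, Complex.norm_real, Real.norm_eq_abs, abs_of_nonneg hn] at h1
  have h2 : (∑ c, ‖H c‖ ^ 2) ^ 2 ≤ ∑ c, ‖H c‖ ^ 2 := by
    have h3 : ‖H 0‖ ^ 2 ≤ ∑ c, ‖H c‖ ^ 2 :=
      single_le_sum (f := fun c => ‖H c‖ ^ 2) (fun c _ => by positivity) (mem_univ 0)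
    rw [h0, Complex.norm_real, Real.norm_eq_abs, sq_abs] at h3
    exact h3
  by_contra hlt
  rw [not_le] at hlt
  nlinarith

/-- the uncertainty principle -/
theorem if_small {H : V → ℂ} (hH : IF H) {n : ℕ} (hn : (spt H).card ≤ n)
    (hβ : (H 0).re * n < 1) : ∀ c, H c = 0 := by
  classical
  obtain ⟨β, h0, hβ0, _, hs, hle⟩ := if_density hH
  have hre : (H 0).re = β := by rw [h0, Complex.ofReal_re]
  rw [hre] at hβ
  have h1 : β ≤ n * β ^ 2 := by
    calc β = ∑ c, ‖H c‖ ^ 2 := hs.symm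
      _ = ∑ c ∈ spt H, ‖H c‖ ^ 2 := by
          symm
          apply sum_subset (subset_univ _)
          intro c _ hc
          have : H c = 0 := by
            by_contra h
            exact hc (by
              unfold spt
              rw [mem_filter]
              exact ⟨mem_univ c, h⟩)
          rw [this]
          simp
      _ ≤ ∑ _c ∈ spt H, β ^ 2 := by
          refine sum_le_sum fun c _ => ?_
          have := hle c
          have h2 := norm_nonneg (H c)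
          nlinarith
      _ = (spt H).card * β ^ 2 := by rw [sum_const, nsmul_eq_mul]
      _ ≤ n * β ^ 2 := by
          have : ((spt H).card : ℝ) ≤ n := by exact_mod_cast hn
          nlinarith [sq_nonneg β]
  have h2 : β = 0 := by
    by_contra hne
    have hpos : 0 < β := lt_of_le_of_ne hβ0 (Ne.symm hne)
    nlinarith
  intro c
  have := hle c
  rw [h2] at this
  exact norm_le_zero_iff.mp this

end Pool.Agent.XA
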