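import Mathlib
import Pool.Agent.Lib_helper38.XA.Defs
import Pool.Agent.Lib_helper67.XA.K4a

/-! XA (MP_e5d384_lc), block K4b (helper67): one step -/

set_option autoImplicit false

namespace Pool.Agent.XA

open Finset Filter Pool.Agent.XO

variable {V : Type} [AddCommGroup V] [Fintype V] [DecidableEq V]
variable {W : Type} [AddCommGroup W] [Fintype W] [DecidableEq W]

omit [DecidableEq V] in
theorem k4b_norm (ξ : AddChar V ℂ) (c : V) : ‖ξ c‖ = 1 := AddChar.norm_apply ξ c


omit [DecidableEq V] in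
theorem k4b_push {H : V → ℂ} (hH : IF H) (π : V →+ W) (ξ : AddChar V ℂ) : IF (push π H ξ) := by
  constructor
  · intro g
    unfold push
    -- `∑_q (∑_{π c = q} H c ξ c) (∑_{π d = g - q} H d ξ d) = ∑_c ∑_d [π c + π d = g] ...`
    have e1 : ∀ q : W, (∑ c, if π c = q then H c * ξ c else 0) *
        (∑ d, if π d = g - q then H d * ξ d else 0) =
        ∑ c, ∑ d, if π c = q ∧ π d = g - q then (H c * ξ c) * (H d * ξ d) else 0 := by
      intro q
      rw [sum_mul]
      refine sum_congr rfl fun c _ => ?_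
      rw [mul_sum]
      refine sum_congr rfl fun d _ => ?_
      by_cases h1 : π c = q <;> by_cases h2 : π d = g - q <;> simp [h1, h2]
    simp only [e1]
    rw [sum_comm]
    have e2 : ∀ c : V, ∑ q : W, ∑ d, (if π c = q ∧ π d = g - q then (H c * ξ c) * (H d * ξ d)
        else 0) = ∑ d, if π (c + d) = g then H c * H d * ξ (c + d) else 0 := by
      intro c
      rw [sum_comm]
      refine sum_congr rfl fun d _ => ?_
      rw [sum_eq_single (π c)]
      · have e3 : (π c = π c ∧ π d = g - π c) ↔ π (c + d) = g := by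
          rw [map_add]
          constructor
          · rintro ⟨_, h⟩
            rw [h]
            abel
          · intro h
            refine ⟨rfl, ?_⟩
            rw [← h]
            abel
        by_cases h : π (c + d) = g
        · rw [if_pos (e3.mpr h), if_pos h, AddChar.map_add_eq_mul]
          ring
        · rw [if_neg (fun h' => h (e3.mp h')), if_neg h]
      · intro q _ hq
        rw [if_neg]
        rintro ⟨h, _⟩
        exact hq h.symm
      · intro h
        exact absurd (mem_univ _) h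
    simp only [e2]
    -- reindex `d = b - c`
    have e4 : ∀ c : V, ∑ d, (if π (c + d) = g then H c * H d * ξ (c + d) else 0) =
        ∑ b, if π b = g then H c * H (b - c) * ξ b else 0 := by
      intro c
      rw [← Equiv.sum_comp (Equiv.addLeft c)
        (fun b => if π b = g then H c * H (b - c) * ξ b else 0)]
      refine sum_congr rfl fun d _ => ?_
      simp [Equiv.coe_addLeft]
    simp only [e4]
    rw [sum_comm]
    refine sum_congr rfl fun b _ => ?_
    by_cases h : π b = g
    · simp only [h, if_true]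
      rw [← sum_mul, hH.conv b]
    · simp only [h, if_false, sum_const_zero]
  · intro q
    unfold push
    rw [map_sum, ← Equiv.sum_comp (Equiv.neg V)
      (fun c => if π c = -q then H c * ξ c else 0)]
    refine sum_congr rfl fun c _ => ?_
    simp only [Equiv.neg_apply, map_neg, neg_inj]
    by_cases h : π c = q
    · rw [if_pos h, if_pos h, hH.conj, map_mul, AddChar.map_neg_eq_conj]
    · rw [if_neg h, if_neg h, map_zero]

/-- a large coefficient outside `0` -/
theorem k4b_large {H : V → ℂ} (hH : IF H) (hne : H 0 ≠ 0) (hβ : (H 0).re ≤ 1 / 2) :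
    ∃ α : V, α ≠ 0 ∧ (H 0).re / (2 * L1 H) ≤ ‖H α‖ := by
  obtain ⟨β, h0, hβ0, _, hs, hle⟩ := if_density hH
  have hre : (H 0).re = β := by rw [h0, Complex.ofReal_re]
  rw [hre] at hβ
  rw [hre]
  have hpos : 0 < β := by
    refine lt_of_le_of_ne hβ0 fun h => hne ?_
    rw [h0, ← h, Complex.ofReal_zero]
  have hn0 : ‖H 0‖ = β := by
    rw [h0, Complex.norm_real, Real.norm_eq_abs, abs_of_pos hpos]
  have hL : L1 H = ‖H 0‖ + ∑ c ∈ univ.erase (0 : V), ‖H c‖ := by
    unfold L1
    exact (add_sum_erase univ (fun c => ‖H c‖) (mem_univ 0)).symm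
  have hS : ∑ c, ‖H c‖ ^ 2 = ‖H 0‖ ^ 2 + ∑ c ∈ univ.erase (0 : V), ‖H c‖ ^ 2 :=
    (add_sum_erase univ (fun c => ‖H c‖ ^ 2) (mem_univ 0)).symm
  have hLpos : 0 < L1 H := by
    rw [hL, hn0]
    have : 0 ≤ ∑ c ∈ univ.erase (0 : V), ‖H c‖ := sum_nonneg fun c _ => norm_nonneg _
    linarith
  by_contra hcon
  push Not at hcon
  have h1 : ∑ c ∈ univ.erase (0 : V), ‖H c‖ ^ 2 ≤
      β / (2 * L1 H) * ∑ c ∈ univ.erase (0 : V), ‖H c‖ := by
    rw [mul_sum]
    refine sum_le_sum fun c hc => ?_
    have h2 := hcon c (ne_of_mem_erase hc)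
    have h3 := norm_nonneg (H c)
    nlinarith
  have h4 : ∑ c ∈ univ.erase (0 : V), ‖H c‖ = L1 H - β := by
    rw [hL, hn0]
    ring
  rw [h4] at h1
  rw [hs, hn0] at hS
  have h5 : β / (2 * L1 H) * (L1 H - β) < β / 2 := by
    have e : β / (2 * L1 H) * (L1 H - β) = β / 2 - β * β / (2 * L1 H) := by
      field_simp
    rw [e]
    have : 0 < β * β / (2 * L1 H) := by positivity
    linarith
  nlinarith

/-- one step: a restriction by one character of the support on which the density drops -/
theorem if_step {H : V → ℂ} (hH : IF H) (hne : H 0 ≠ 0) (hβ : (H 0).re ≤ 1 / 2) :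
    ∃ α : V, H α ≠ 0 ∧ α ≠ 0 ∧
      ∀ (W : Type) [AddCommGroup W] [Fintype W] [DecidableEq W] (π : V →+ W),
        (∀ c, π c = 0 ↔ c ∈ AddSubgroup.closure ({α} : Set V)) →
        ∃ ξ : AddChar V ℂ, (push π H ξ 0).re ≤ (H 0).re * (1 - 1 / (4 * L1 H)) := by
  obtain ⟨α, hα0, hα⟩ := k4b_large hH hne hβ
  obtain ⟨β, h0, hβ0, _, hs, hle⟩ := if_density hH
  have hre : (H 0).re = β := by rw [h0, Complex.ofReal_re]
  rw [hre] at hβ hα
  have hpos : 0 < β := by
    refine lt_of_le_of_ne hβ0 fun h => hne ?_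
    rw [h0, ← h, Complex.ofReal_zero]
  have hLpos : 0 < L1 H := by
    have h1 : ‖H 0‖ ≤ L1 H :=
      single_le_sum (f := fun c => ‖H c‖) (fun c _ => norm_nonneg _) (mem_univ 0)
    have h2 : 0 < ‖H 0‖ := norm_pos_iff.mpr hne
    linarith
  have hηpos : 0 < β / (2 * L1 H) := by positivity
  have hHα : H α ≠ 0 := norm_pos_iff.mp (lt_of_lt_of_le hηpos hα)
  refine ⟨α, hHα, hα0, ?_⟩
  intro W _ _ _ π hπ
  rw [hre]
  by_contra hcon
  push Not at hcon
  have hπα : π α = 0 := (hπ α).mpr (AddSubgroup.subset_closure (Set.mem_singleton α))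
  -- the densities of the restrictions
  have hr : ∀ ξ : AddChar V ℂ, push π H ξ 0 = (((push π H ξ 0).re : ℝ) : ℂ) := by
    intro ξ
    obtain ⟨b, hb, _⟩ := if_density (k4b_push hH π ξ)
    rw [hb, Complex.ofReal_re]
  have hswap : ∀ (t : V), π t = 0 → ∑ ξ : AddChar V ℂ, push π H ξ 0 * ξ (-t) =
      Fintype.card V * H t := by
    intro t ht
    have e1 : ∀ ξ : AddChar V ℂ, push π H ξ 0 * ξ (-t) =
        ∑ c, if π c = 0 then H c * ξ (c - t) else 0 := by
      intro ξ
      unfold push
      rw [sum_mul]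
      refine sum_congr rfl fun c _ => ?_
      by_cases h : π c = 0
      · rw [if_pos h, if_pos h, sub_eq_add_neg, AddChar.map_add_eq_mul]
        ring
      · rw [if_neg h, if_neg h, zero_mul]
    simp only [e1]
    rw [sum_comm]
    have e2 : ∀ c : V, ∑ ξ : AddChar V ℂ, (if π c = 0 then H c * ξ (c - t) else 0) =
        if c = t then (Fintype.card V : ℂ) * H t else 0 := by
      intro c
      by_cases h : π c = 0
      · simp only [h, if_true]
        rw [← mul_sum, AddChar.sum_apply_eq_ite]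
        by_cases hct : c = t
        · subst hct
          simp
          ring
        · rw [if_neg (sub_ne_zero.mpr hct), if_neg hct, mul_zero]
      · simp only [h, if_false, sum_const_zero]
        rw [if_neg]
        rintro rfl
        exact h ht
    simp only [e2, sum_ite_eq', mem_univ, if_true]
  have hN : (0 : ℝ) < Fintype.card V := by exact_mod_cast Fintype.card_pos
  have hcard : (Fintype.card (AddChar V ℂ) : ℝ) = Fintype.card V := by
    rw [AddChar.card_eq]
  have hmean : ∑ ξ : AddChar V ℂ, (push π H ξ 0).re = Fintype.card V * β := by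
    have h1 := hswap 0 (map_zero π)
    have h2 := congrArg Complex.re h1
    rw [Complex.re_sum] at h2
    simp only [neg_zero, AddChar.map_zero_eq_one, mul_one] at h2
    rw [h2, h0]
    have : ((Fintype.card V : ℂ) * (β : ℂ)) = ((Fintype.card V * β : ℝ) : ℂ) := by push_cast; rfl
    rw [this, Complex.ofReal_re]
  have hcoef : (Fintype.card V : ℝ) * ‖H α‖ ≤
      ∑ ξ : AddChar V ℂ, |(push π H ξ 0).re - β| := by
    have h1 := hswap α hπα
    have h2 : ∑ ξ : AddChar V ℂ, ((((push π H ξ 0).re - β : ℝ) : ℂ)) * ξ (-α) =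
        Fintype.card V * H α := by
      rw [← h1]
      have e3 : ∑ ξ : AddChar V ℂ, (β : ℂ) * ξ (-α) = 0 := by
        rw [← mul_sum, AddChar.sum_apply_eq_ite, if_neg (neg_ne_zero.mpr hα0), mul_zero]
      rw [← sub_zero (∑ ξ : AddChar V ℂ, push π H ξ 0 * ξ (-α)), ← e3, ← sum_sub_distrib]
      refine sum_congr rfl fun ξ _ => ?_
      rw [Complex.ofReal_sub, ← hr ξ]
      ring
    calc (Fintype.card V : ℝ) * ‖H α‖ = ‖(Fintype.card V : ℂ) * H α‖ := by
          rw [norm_mul, Complex.norm_natCast]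
      _ = ‖∑ ξ : AddChar V ℂ, ((((push π H ξ 0).re - β : ℝ) : ℂ)) * ξ (-α)‖ := by rw [h2]
      _ ≤ ∑ ξ : AddChar V ℂ, ‖((((push π H ξ 0).re - β : ℝ) : ℂ)) * ξ (-α)‖ := norm_sum_le _ _
      _ = ∑ ξ : AddChar V ℂ, |(push π H ξ 0).re - β| := by
          refine sum_congr rfl fun ξ _ => ?_
          rw [norm_mul, k4b_norm, mul_one, Complex.norm_real, Real.norm_eq_abs]
  have hlt : ∀ ξ : AddChar V ℂ, |(push π H ξ 0).re - β| <
      ((push π H ξ 0).re - β) + 2 * (β / (4 * L1 H)) := by
    intro ξ
    have h1 := hcon ξ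
    have e : β * (1 - 1 / (4 * L1 H)) = β - β / (4 * L1 H) := by ring
    rw [e] at h1
    have h2 : 0 < β / (4 * L1 H) := by positivity
    rw [abs_lt]
    constructor <;> linarith
  have hsum : ∑ ξ : AddChar V ℂ, |(push π H ξ 0).re - β| <
      Fintype.card V * (2 * (β / (4 * L1 H))) := by
    calc ∑ ξ : AddChar V ℂ, |(push π H ξ 0).re - β|
        < ∑ ξ : AddChar V ℂ, (((push π H ξ 0).re - β) + 2 * (β / (4 * L1 H))) :=
          sum_lt_sum_of_nonempty univ_nonempty fun ξ _ => hlt ξ
      _ = Fintype.card V * (2 * (β / (4 * L1 H))) := by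
          rw [sum_add_distrib, sum_sub_distrib, hmean, sum_const, sum_const, card_univ,
            nsmul_eq_mul, nsmul_eq_mul, hcard]
          ring
  have hfin : (Fintype.card V : ℝ) * ‖H α‖ < Fintype.card V * (β / (2 * L1 H)) := by
    have e : 2 * (β / (4 * L1 H)) = β / (2 * L1 H) := by
      field_simp
      ring
    rw [← e]
    exact lt_of_le_of_lt hcoef hsum
  have := lt_of_mul_lt_mul_left hfin hN.le
  linarith

end Pool.Agent.XA
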