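import Mathlib
import Pool.Agent.Lib_helper38.XA.Defs
import Pool.Agent.Lib_helper67.XA.K4b
import Pool.Agent.Lib_helper98.XA.K1
import Pool.Agent.Lib_helper58.XA.K2a
import Pool.Agent.Lib_helper58.XA.K2b

/-! XA (MP_e5d384_lc), block K4c (helper67): small spectral norm -/

set_option autoImplicit false

namespace Pool.Agent.XA

open Finset Filter Pool.Agent.XO

variable {V : Type} [AddCommGroup V] [Fintype V] [DecidableEq V]
variable {W : Type} [AddCommGroup W] [Fintype W] [DecidableEq W]

/-- the transform of the indicator function of the set where `F = σ` -/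
noncomputable def k4cH (σ : ℝ) (F : V → ℂ) (c : V) : ℂ := ((if c = 0 then 1 else 0) + σ * F c) / 2

theorem k4c_if {F : V → ℂ} (hF : BF F) {σ : ℝ} (hσ : σ = 1 ∨ σ = -1) : IF (k4cH σ F) := by
  have hσ2 : (σ : ℂ) * σ = 1 := by
    rcases hσ with h | h <;> rw [h] <;> norm_num
  constructor
  · intro g
    unfold k4cH
    have e : ∀ c : V, ((if c = 0 then (1 : ℂ) else 0) + σ * F c) / 2 *
        (((if g - c = 0 then (1 : ℂ) else 0) + σ * F (g - c)) / 2) =
        (1 / 4) * ((if c = 0 then (if g - c = 0 then (1 : ℂ) else 0) + σ * F (g - c) else 0) +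
          (if c = g then σ * F c else 0) + σ * σ * (F c * F (g - c))) := by
      intro c
      have e1 : g - c = 0 ↔ c = g := by
        rw [sub_eq_zero]
        exact eq_comm
      by_cases h1 : c = 0 <;> by_cases h2 : c = g
      · rw [if_pos h1, if_pos (e1.mpr h2), if_pos h1, if_pos h2]
        ring
      · rw [if_pos h1, if_neg (fun h => h2 (e1.mp h)), if_pos h1, if_neg h2]
        ring
      · rw [if_neg h1, if_pos (e1.mpr h2), if_neg h1, if_pos h2]
        ring
      · rw [if_neg h1, if_neg (fun h => h2 (e1.mp h)), if_neg h1, if_neg h2]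
        ring
    simp only [e]
    rw [← mul_sum, sum_add_distrib, sum_add_distrib, ← mul_sum, hF.conv g, hσ2]
    simp only [sum_ite_eq', mem_univ, if_true, sub_zero]
    by_cases h : g = 0
    · simp only [h, if_true]
      ring
    · simp only [h, if_false]
      ring
  · intro c
    unfold k4cH
    rw [hF.conj, map_div₀, map_add, map_mul, Complex.conj_ofReal, Complex.conj_ofNat]
    congr 2
    by_cases h : c = 0
    · simp [h]
    · rw [if_neg (neg_ne_zero.mpr h), if_neg h, map_zero]

omit [Fintype W] in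
theorem k4c_push (σ : ℝ) (F : V → ℂ) (π : V →+ W) (ξ : AddChar V ℂ) :
    push π (k4cH σ F) ξ = k4cH σ (push π F ξ) := by
  funext q
  unfold push k4cH
  have e : ∀ c : V, (if π c = q then ((if c = 0 then (1 : ℂ) else 0) + σ * F c) / 2 * ξ c else 0) =
      (1 / 2) * (if c = 0 then (if π c = q then (1 : ℂ) else 0) else 0) +
        (σ / 2) * (if π c = q then F c * ξ c else 0) := by
    intro c
    by_cases h1 : π c = q <;> by_cases h2 : c = 0
    · rw [if_pos h1, if_pos h2, if_pos h2, if_pos h1, if_pos h1, h2, AddChar.map_zero_eq_one]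
      ring
    · rw [if_pos h1, if_neg h2, if_neg h2, if_pos h1]
      ring
    · rw [if_neg h1, if_pos h2, if_neg h1, if_neg h1]
      ring
    · rw [if_neg h1, if_neg h2, if_neg h1]
      ring
  simp only [e]
  rw [sum_add_distrib, ← mul_sum, ← mul_sum]
  simp only [sum_ite_eq', mem_univ, if_true, map_zero]
  have e2 : (if (0 : W) = q then (1 : ℂ) else 0) = if q = 0 then 1 else 0 := by
    by_cases h : q = 0
    · simp [h]
    · rw [if_neg h, if_neg (fun h' => h h'.symm)]
  rw [e2]
  ring

omit [DecidableEq V] in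
theorem k4c_L1 (H : V → ℂ) (π : V →+ W) (ξ : AddChar V ℂ) : L1 (push π H ξ) ≤ L1 H := by
  unfold L1 push
  calc ∑ q : W, ‖∑ c, if π c = q then H c * ξ c else 0‖
      ≤ ∑ q : W, ∑ c, if π c = q then ‖H c‖ else 0 := by
        refine sum_le_sum fun q _ => (norm_sum_le _ _).trans (sum_le_sum fun c _ => ?_)
        by_cases h : π c = q
        · rw [if_pos h, if_pos h, norm_mul, k4b_norm, mul_one]
        · rw [if_neg h, if_neg h, norm_zero]
    _ = ∑ c, ‖H c‖ := by
        rw [sum_comm]
        refine sum_congr rfl fun c _ => ?_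
        simp

/-- the constant case -/
theorem k4c_zero {F : V → ℂ} {σ : ℝ} (hσ : σ = 1 ∨ σ = -1) (h : ∀ c, k4cH σ F c = 0) :
    Dif F ∅ ∧ Kills F ∅ := by
  have hF : ∀ c, c ≠ 0 → F c = 0 := by
    intro c hc
    have h1 := h c
    unfold k4cH at h1
    rw [if_neg hc, zero_add] at h1
    rcases hσ with h2 | h2
    · rw [h2] at h1
      simpa using h1
    · rw [h2] at h1
      simpa using h1
  refine ⟨fun g hg => absurd hg (notMem_empty g), 1, ?_⟩
  intro q hq
  refine sum_eq_zero fun c _ => ?_
  rw [coe_empty, AddSubgroup.closure_empty] at hq ⊢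
  by_cases h1 : c - q ∈ (⊥ : AddSubgroup V)
  · rw [if_pos h1]
    rw [AddSubgroup.mem_bot, sub_eq_zero] at h1
    have h2 : c ≠ 0 := by
      rw [h1]
      intro h3
      exact hq (by rw [h3]; exact AddSubgroup.zero_mem _)
    rw [hF c h2, zero_mul]
  · rw [if_neg h1]

/-- the induction -/
theorem k4c_rec {L : ℝ} (hL : 1 ≤ L) (n : ℕ) {σ : ℝ} (hσ : σ = 1 ∨ σ = -1) (t : ℕ) :
    ∀ (V : Type) [AddCommGroup V] [Fintype V] [DecidableEq V] (F : V → ℂ), BF F →
      (k4cH σ F 0).re ≤ 1 / 2 → L1 (k4cH σ F) ≤ L → (spt (k4cH σ F)).card ≤ n →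
      (k4cH σ F 0).re * n * (1 - 1 / (4 * L)) ^ t < 1 →
      ∃ T : Finset V, T.card ≤ t ∧ Dif F T ∧ Kills F T := by
  classical
  have hx : 0 ≤ 1 - 1 / (4 * L) := by
    have : 1 / (4 * L) ≤ 1 := by
      rw [div_le_one (by linarith)]
      linarith
    linarith
  induction t with
  | zero =>
    intro V _ _ _ F hF h1 h2 h3 h4
    rw [pow_zero, mul_one] at h4
    have h5 := if_small (k4c_if hF hσ) h3 h4
    obtain ⟨hd, hk⟩ := k4c_zero hσ h5
    exact ⟨∅, by simp, hd, hk⟩
  | succ t ih =>
    intro V _ _ _ F hF h1 h2 h3 h4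
    have hIF := k4c_if hF hσ
    by_cases h0 : k4cH σ F 0 = 0
    · have h5 := if_small hIF h3 (by rw [h0]; simp)
      obtain ⟨hd, hk⟩ := k4c_zero hσ h5
      exact ⟨∅, by simp, hd, hk⟩
    · obtain ⟨α, hα, hα0, hstep⟩ := if_step hIF h0 h1
      obtain ⟨β, hβ, hβ0, _, _, _⟩ := if_density hIF
      have hre : (k4cH σ F 0).re = β := by rw [hβ, Complex.ofReal_re]
      set U : AddSubgroup V := AddSubgroup.closure ({α} : Set V) with hU
      have hker : ∀ c, (QuotientAddGroup.mk' U) c = 0 ↔ c ∈ U := fun c =>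
        QuotientAddGroup.eq_zero_iff c
      obtain ⟨ξ, hξ⟩ := hstep (V ⧸ U) (QuotientAddGroup.mk' U) hker
      rw [k4c_push] at hξ
      have hLpos : 0 < L1 (k4cH σ F) := by
        have e1 : ‖k4cH σ F 0‖ ≤ L1 (k4cH σ F) :=
          single_le_sum (f := fun c => ‖k4cH σ F c‖) (fun c _ => norm_nonneg _) (mem_univ 0)
        have e2 : 0 < ‖k4cH σ F 0‖ := norm_pos_iff.mpr h0
        linarith
      have hdrop : (k4cH σ (push (QuotientAddGroup.mk' U) F ξ) 0).re ≤
          (k4cH σ F 0).re * (1 - 1 / (4 * L)) := by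
        refine hξ.trans ?_
        rw [hre]
        have : 1 / (4 * L) ≤ 1 / (4 * L1 (k4cH σ F)) :=
          one_div_le_one_div_of_le (by positivity) (by linarith)
        nlinarith
      have hF' := push_bf hF (QuotientAddGroup.mk' U) ξ
      have hα' : F α ≠ 0 := by
        intro h
        apply hα
        unfold k4cH
        rw [if_neg hα0, h]
        simp
      have hx1 : 1 - 1 / (4 * L) ≤ 1 := by
        have : 0 < 1 / (4 * L) := by positivity
        linarith
      obtain ⟨T2, hc2, hd2, hk2⟩ := ih (V ⧸ U) (push (QuotientAddGroup.mk' U) F ξ) hF' (by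
          rw [hre] at h1 hdrop
          nlinarith) (by
          rw [← k4c_push]
          exact (k4c_L1 _ _ _).trans h2) (by
          rw [← k4c_push]
          exact (push_card _ _ _).trans h3) (by
          refine lt_of_le_of_lt ?_ h4
          rw [pow_succ]
          have e1 : (0 : ℝ) ≤ (1 - 1 / (4 * L)) ^ t := pow_nonneg hx t
          have e2 : (0 : ℝ) ≤ n := Nat.cast_nonneg n
          calc (k4cH σ (push (QuotientAddGroup.mk' U) F ξ) 0).re * n * (1 - 1 / (4 * L)) ^ t
              = (k4cH σ (push (QuotientAddGroup.mk' U) F ξ) 0).re *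
                  (n * (1 - 1 / (4 * L)) ^ t) := by ring
            _ ≤ ((k4cH σ F 0).re * (1 - 1 / (4 * L))) * (n * (1 - 1 / (4 * L)) ^ t) :=
                mul_le_mul_of_nonneg_right hdrop (by positivity)
            _ = _ := by ring)
      have hT1 : ∀ c, (QuotientAddGroup.mk' U) c = 0 ↔
          c ∈ AddSubgroup.closure ((({α} : Finset V)) : Set V) := by
        intro c
        rw [coe_singleton]
        exact hker c
      have hd1 : Dif F ({α} : Finset V) := by
        intro g hg
        rw [mem_singleton] at hg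
        rw [hg]
        exact Or.inl hα'
      obtain ⟨T, hcT, hdT, hkT⟩ := kills_comp (QuotientAddGroup.mk'_surjective U) hT1 hd1 ξ hd2 hk2
      refine ⟨T, ?_, hdT, hkT⟩
      rw [card_singleton] at hcT
      omega

theorem asmall {F : V → ℂ} (hF : BF F) {s : ℕ} (hs1 : 1 ≤ s) (hs : (spt F).card ≤ s) :
    ∃ T : Finset V, (T.card : ℝ) ≤ 8 * L1 F * (1 + Real.log s) ∧ Dif F T ∧ Kills F T := by
  classical
  have hL := bf_L1_ge hF
  have hs1' : (1 : ℝ) ≤ s := by exact_mod_cast hs1
  have hlog : 0 ≤ Real.log s := Real.log_nonneg hs1'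
  obtain ⟨σ, hσ, hσ1⟩ : ∃ σ : ℝ, (σ = 1 ∨ σ = -1) ∧ σ * (F 0).re ≤ 0 := by
    rcases le_total 0 (F 0).re with h | h
    · exact ⟨-1, Or.inr rfl, by linarith⟩
    · exact ⟨1, Or.inl rfl, by linarith⟩
  have hσn : ‖(σ : ℂ)‖ = 1 := by
    rcases hσ with h | h <;> rw [h] <;> simp
  have h1 : (k4cH σ F 0).re ≤ 1 / 2 := by
    unfold k4cH
    rw [if_pos rfl]
    have : ((1 + (σ : ℂ) * F 0) / 2).re = (1 + σ * (F 0).re) / 2 := by
      simp
    rw [this]
    linarith
  have h2 : L1 (k4cH σ F) ≤ L1 F := by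
    have e1 : L1 (k4cH σ F) ≤ (1 + L1 F) / 2 := by
      unfold L1 k4cH
      calc ∑ c, ‖((if c = 0 then (1 : ℂ) else 0) + σ * F c) / 2‖
          ≤ ∑ c, ((if c = 0 then (1 : ℝ) else 0) + ‖F c‖) / 2 := by
            refine sum_le_sum fun c _ => ?_
            rw [norm_div]
            have e2 : ‖(2 : ℂ)‖ = 2 := by simp
            rw [e2]
            have e3 : ‖(if c = 0 then (1 : ℂ) else 0) + σ * F c‖ ≤
                (if c = 0 then (1 : ℝ) else 0) + ‖F c‖ := by
              refine (norm_add_le _ _).trans ?_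
              rw [norm_mul, hσn, one_mul]
              by_cases h : c = 0
              · rw [if_pos h, if_pos h, norm_one]
              · rw [if_neg h, if_neg h, norm_zero]
            linarith
        _ = (1 + ∑ c, ‖F c‖) / 2 := by
            rw [← sum_div, sum_add_distrib]
            simp
    linarith
  have h3 : (spt (k4cH σ F)).card ≤ s + 1 := by
    have e1 : spt (k4cH σ F) ⊆ insert 0 (spt F) := by
      intro c hc
      unfold spt at hc ⊢
      rw [mem_filter] at hc
      rw [mem_insert, mem_filter]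
      by_cases h : c = 0
      · exact Or.inl h
      · refine Or.inr ⟨mem_univ c, fun h' => hc.2 ?_⟩
        unfold k4cH
        rw [if_neg h, h']
        simp
    calc (spt (k4cH σ F)).card ≤ (insert 0 (spt F)).card := card_le_card e1
      _ ≤ (spt F).card + 1 := card_insert_le _ _
      _ ≤ s + 1 := by omega
  set t : ℕ := ⌊8 * L1 F * (1 + Real.log s)⌋₊ with ht
  have h0t : 0 ≤ 8 * L1 F * (1 + Real.log s) := by positivity
  have ht1 : (t : ℝ) ≤ 8 * L1 F * (1 + Real.log s) := Nat.floor_le h0t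
  have ht2 : 8 * L1 F * (1 + Real.log s) < t + 1 := Nat.lt_floor_add_one _
  have h4 : (k4cH σ F 0).re * (s + 1 : ℕ) * (1 - 1 / (4 * L1 F)) ^ t < 1 := by
    have hx : 0 ≤ 1 - 1 / (4 * L1 F) := by
      have : 1 / (4 * L1 F) ≤ 1 := by
        rw [div_le_one (by linarith)]
        linarith
      linarith
    have e1 : (1 - 1 / (4 * L1 F)) ^ t ≤ Real.exp (-(7 / 4 + 2 * Real.log s)) := by
      have e2 : 1 - 1 / (4 * L1 F) ≤ Real.exp (-(1 / (4 * L1 F))) :=
        Real.one_sub_le_exp_neg _
      calc (1 - 1 / (4 * L1 F)) ^ t ≤ (Real.exp (-(1 / (4 * L1 F)))) ^ t :=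
            pow_le_pow_left₀ hx e2 t
        _ = Real.exp (t * (-(1 / (4 * L1 F)))) := by rw [← Real.exp_nat_mul]
        _ ≤ Real.exp (-(7 / 4 + 2 * Real.log s)) := by
            apply Real.exp_le_exp.mpr
            have e3 : (8 * L1 F * (1 + Real.log s) - 1) * (1 / (4 * L1 F)) ≤
                t * (1 / (4 * L1 F)) :=
              mul_le_mul_of_nonneg_right (by linarith) (by positivity)
            have e4 : (8 * L1 F * (1 + Real.log s) - 1) * (1 / (4 * L1 F)) =
                2 * (1 + Real.log s) - 1 / (4 * L1 F) := by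
              field_simp
              ring
            have e5 : 1 / (4 * L1 F) ≤ 1 / 4 := by
              apply one_div_le_one_div_of_le (by norm_num)
              linarith
            linarith
    have e6 : (k4cH σ F 0).re * (s + 1 : ℕ) ≤ Real.exp (Real.log s) := by
      rw [Real.exp_log (by linarith)]
      push_cast
      nlinarith
    have hp : (0 : ℝ) ≤ (1 - 1 / (4 * L1 F)) ^ t := pow_nonneg hx t
    calc (k4cH σ F 0).re * (s + 1 : ℕ) * (1 - 1 / (4 * L1 F)) ^ t
        ≤ Real.exp (Real.log s) * (1 - 1 / (4 * L1 F)) ^ t :=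
          mul_le_mul_of_nonneg_right e6 hp
      _ ≤ Real.exp (Real.log s) * Real.exp (-(7 / 4 + 2 * Real.log s)) :=
          mul_le_mul_of_nonneg_left e1 (Real.exp_pos _).le
      _ = Real.exp (-(7 / 4 + Real.log s)) := by
          rw [← Real.exp_add]
          congr 1
          ring
      _ < 1 := by
          rw [Real.exp_lt_one_iff]
          linarith
  obtain ⟨T, hcT, hdT, hkT⟩ := k4c_rec hL (s + 1) hσ t V F hF h1 h2 h3 h4
  refine ⟨T, le_trans (by exact_mod_cast hcT) ht1, hdT, hkT⟩

end Pool.Agent.XA
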