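import Mathlib
import Pool.Agent.Lib_helper38.XA.Defs
import Pool.Agent.Lib_helper98.XA.K1
import Pool.Agent.Lib_helper58.XA.K2a
import Pool.Agent.Lib_helper58.XA.K2b
import Pool.Agent.Lib_helper16.XA.K2c
import Pool.Agent.Lib_helper58.XA.K3c
import Pool.Agent.Lib_helper58.XA.K3d
import Pool.Agent.Lib_helper67.XA.K4c

/-! XA (MP_e5d384_lc), blocks K5a, K5b (helper67): the iteration -/

set_option autoImplicit false

namespace Pool.Agent.XA

open Finset Filter Pool.Agent.XO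

/-- the induction on the number of steps; `a = 2 s ^ κ`, `b = 8 s ^ κ2 (1 + log s)` -/
theorem k5_rec {κ κ' κ2 : ℝ} {s : ℕ} (hs : 2 ≤ s)
    (hno : ∀ (V : Type) [AddCommGroup V] [Fintype V] [DecidableEq V] (p : V → ℝ) (e : V → ℂ),
      ¬ AWorld p e (s : ℝ) κ κ' κ2)
    (hx : (s : ℝ) ^ (-κ') / 2 ≤ 1) (k : ℕ) :
    ∀ (V : Type) [AddCommGroup V] [Fintype V] [DecidableEq V] (F : V → ℂ),
      BF F → (spt F).card ≤ s → (∀ c, F c ≠ 0 → addOrderOf c ≤ s ^ 3) →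
      L1 F * (1 - (s : ℝ) ^ (-κ') / 2) ^ k < 1 →
      ∃ T : Finset V, (T.card : ℝ) ≤ k * (2 * (s : ℝ) ^ κ) +
        8 * (s : ℝ) ^ κ2 * (1 + Real.log s) ∧ Dif F T ∧ Kills F T := by
  classical
  have hs1 : (1 : ℝ) ≤ s := by exact_mod_cast (by omega : 1 ≤ s)
  have hlog : 0 ≤ Real.log s := Real.log_nonneg hs1
  have hx' : 0 ≤ 1 - (s : ℝ) ^ (-κ') / 2 := by linarith
  induction k with
  | zero =>
    intro V _ _ _ F hF hc ho hk
    rw [pow_zero, mul_one] at hk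
    exact absurd (bf_L1_ge hF) (not_le.mpr hk)
  | succ k ih =>
    intro V _ _ _ F hF hc ho hk
    by_cases hL : L1 F < (s : ℝ) ^ κ2
    · obtain ⟨T, hT, hd, hK⟩ := asmall hF (by omega : 1 ≤ s) hc
      refine ⟨T, hT.trans ?_, hd, hK⟩
      have h1 : 8 * L1 F * (1 + Real.log s) ≤ 8 * (s : ℝ) ^ κ2 * (1 + Real.log s) := by
        apply mul_le_mul_of_nonneg_right _ (by linarith)
        linarith
      have h2 : (0 : ℝ) ≤ ((k + 1 : ℕ) : ℝ) * (2 * (s : ℝ) ^ κ) := by positivity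
      linarith
    · rw [not_lt] at hL
      have hspread : ¬ ASpread (fun c => ‖F c‖ / L1 F) (s : ℝ) κ κ' := by
        intro hS
        refine hno V _ _ (aworld_of hF hs1 (by exact_mod_cast hc) ?_ hL hS)
        intro c hc'
        exact_mod_cast ho c hc'
      obtain ⟨T1, hT1, hd1, hstep⟩ := astep hF hs1 hspread
      set U : AddSubgroup V := AddSubgroup.closure (T1 : Set V) with hU
      have hker : ∀ c, (QuotientAddGroup.mk' U) c = 0 ↔ c ∈ U := fun c =>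
        QuotientAddGroup.eq_zero_iff c
      have hsur : Function.Surjective (QuotientAddGroup.mk' U) :=
        QuotientAddGroup.mk'_surjective U
      obtain ⟨ξ, hξ⟩ := hstep (V ⧸ U) (QuotientAddGroup.mk' U) hsur hker
      obtain ⟨T2, hT2, hd2, hk2⟩ := ih (V ⧸ U) (push (QuotientAddGroup.mk' U) F ξ)
        (push_bf hF _ ξ) ((push_card F _ ξ).trans hc)
        (fun q hq => push_ord ho q hq) (by
          refine lt_of_le_of_lt ?_ hk
          rw [pow_succ]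
          calc L1 (push (QuotientAddGroup.mk' U) F ξ) * (1 - (s : ℝ) ^ (-κ') / 2) ^ k
              ≤ L1 F * (1 - (s : ℝ) ^ (-κ') / 2) * (1 - (s : ℝ) ^ (-κ') / 2) ^ k :=
                mul_le_mul_of_nonneg_right hξ (pow_nonneg hx' k)
            _ = _ := by ring)
      obtain ⟨T, hT, hd, hK⟩ := kills_comp hsur hker hd1 ξ hd2 hk2
      refine ⟨T, ?_, hd, hK⟩
      have h1 : (T.card : ℝ) ≤ T1.card + T2.card := by exact_mod_cast hT
      push_cast
      linarith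

theorem aiter (h : NoAWorld) {κ κ' κ2 : ℝ} (hκ : 0 < κ) (hκ' : 0 < κ') (hκ2 : 0 < κ2) :
    ∀ᶠ s : ℕ in atTop, ∀ (V : Type) [AddCommGroup V] [Fintype V] [DecidableEq V] (F : V → ℂ),
      BF F → (spt F).card ≤ s → (∀ c, F c ≠ 0 → addOrderOf c ≤ s ^ 3) →
      ∃ T : Finset V, (T.card : ℝ) ≤ (2 * (s : ℝ) ^ κ + 1) * (2 * (s : ℝ) ^ κ' * Real.log s + 1) +
        8 * (s : ℝ) ^ κ2 * (1 + Real.log s) ∧ Dif F T ∧ Kills F T := by
  have h1 := tendsto_natCast_atTop_atTop.eventually (h κ κ' κ2 hκ hκ' hκ2)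
  filter_upwards [h1, eventually_ge_atTop 2] with s hno hs V _ _ _ F hF hc ho
  have hs1 : (1 : ℝ) ≤ s := by exact_mod_cast (by omega : 1 ≤ s)
  have hs0 : (0 : ℝ) < s := by linarith
  have hlog : 0 ≤ Real.log s := Real.log_nonneg hs1
  have hxle : (s : ℝ) ^ (-κ') / 2 ≤ 1 := by
    have : (s : ℝ) ^ (-κ') ≤ 1 := Real.rpow_le_one_of_one_le_of_nonpos hs1 (by linarith)
    linarith
  have hy : (0 : ℝ) < (s : ℝ) ^ κ' := Real.rpow_pos_of_pos hs0 _
  set k : ℕ := ⌊2 * (s : ℝ) ^ κ' * Real.log s⌋₊ + 1 with hkdef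
  have hk1 : 2 * (s : ℝ) ^ κ' * Real.log s < k := by
    rw [hkdef]
    push_cast
    exact Nat.lt_floor_add_one _
  have hk2 : (k : ℝ) ≤ 2 * (s : ℝ) ^ κ' * Real.log s + 1 := by
    rw [hkdef]
    push_cast
    have := Nat.floor_le (show 0 ≤ 2 * (s : ℝ) ^ κ' * Real.log s by positivity)
    linarith
  have hL : L1 F ≤ s := (bf_L1_le hF).trans (by exact_mod_cast hc)
  have hL0 : 0 ≤ L1 F := le_trans zero_le_one (bf_L1_ge hF)
  have hlt : L1 F * (1 - (s : ℝ) ^ (-κ') / 2) ^ k < 1 := by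
    have e1 : (1 - (s : ℝ) ^ (-κ') / 2) ^ k ≤ Real.exp (k * (-((s : ℝ) ^ (-κ') / 2))) := by
      rw [Real.exp_nat_mul]
      exact pow_le_pow_left₀ (by linarith) (Real.one_sub_le_exp_neg _) k
    have e2 : (k : ℝ) * (-((s : ℝ) ^ (-κ') / 2)) < -Real.log s := by
      have e3 : (s : ℝ) ^ (-κ') * (s : ℝ) ^ κ' = 1 := by
        rw [← Real.rpow_add hs0, neg_add_cancel, Real.rpow_zero]
      have e4 : 0 < (s : ℝ) ^ (-κ') / 2 := by positivity
      have e5 := mul_lt_mul_of_pos_right hk1 e4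
      have e6 : 2 * (s : ℝ) ^ κ' * Real.log s * ((s : ℝ) ^ (-κ') / 2) = Real.log s := by
        calc 2 * (s : ℝ) ^ κ' * Real.log s * ((s : ℝ) ^ (-κ') / 2)
            = ((s : ℝ) ^ (-κ') * (s : ℝ) ^ κ') * Real.log s := by ring
          _ = Real.log s := by rw [e3, one_mul]
      rw [e6] at e5
      linarith
    calc L1 F * (1 - (s : ℝ) ^ (-κ') / 2) ^ k
        ≤ L1 F * Real.exp (k * (-((s : ℝ) ^ (-κ') / 2))) := mul_le_mul_of_nonneg_left e1 hL0
      _ ≤ s * Real.exp (k * (-((s : ℝ) ^ (-κ') / 2))) :=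
          mul_le_mul_of_nonneg_right hL (Real.exp_pos _).le
      _ < s * Real.exp (-Real.log s) := by
          apply mul_lt_mul_of_pos_left _ hs0
          exact Real.exp_lt_exp.mpr e2
      _ = 1 := by
          rw [Real.exp_neg, Real.exp_log hs0, mul_inv_cancel₀ hs0.ne']
  obtain ⟨T, hT, hd, hK⟩ := k5_rec hs hno hxle k V F hF hc ho hlt
  refine ⟨T, hT.trans ?_, hd, hK⟩
  have hκ0 : (0 : ℝ) ≤ (s : ℝ) ^ κ := Real.rpow_nonneg hs0.le _
  have h2 : (k : ℝ) * (2 * (s : ℝ) ^ κ) ≤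
      (2 * (s : ℝ) ^ κ' * Real.log s + 1) * (2 * (s : ℝ) ^ κ) :=
    mul_le_mul_of_nonneg_right hk2 (by positivity)
  have h3 : 0 ≤ 2 * (s : ℝ) ^ κ' * Real.log s + 1 := by positivity
  nlinarith

theorem akill (h : NoAWorld) {ε : ℝ} (hε : 0 < ε) : ∃ C : ℝ, 0 ≤ C ∧ ∀ s : ℕ, 2 ≤ s →
    ∀ (V : Type) [AddCommGroup V] [Fintype V] [DecidableEq V] (F : V → ℂ),
      BF F → (spt F).card ≤ s → (∀ c, F c ≠ 0 → addOrderOf c ≤ s ^ 3) →
      ∃ T : Finset V, (T.card : ℝ) ≤ C * (s : ℝ) ^ ε ∧ Dif F T ∧ Kills F T := by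
  have h4 : 0 < ε / 4 := by positivity
  obtain ⟨s₀, hs₀⟩ := eventually_atTop.mp (aiter h h4 h4 h4)
  refine ⟨3 * (8 / ε + 1) + 8 * (1 + 4 / ε) + s₀, by positivity, ?_⟩
  intro s hs V _ _ _ F hF hc ho
  have hs1 : (1 : ℝ) ≤ s := by exact_mod_cast (by omega : 1 ≤ s)
  have hs0 : (0 : ℝ) < s := by linarith
  have hy1 : 1 ≤ (s : ℝ) ^ ε := Real.one_le_rpow hs1 hε.le
  by_cases hss : s₀ ≤ s
  · obtain ⟨T, hT, hd, hK⟩ := hs₀ s hss V F hF hc ho
    refine ⟨T, hT.trans ?_, hd, hK⟩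
    set y : ℝ := (s : ℝ) ^ (ε / 4) with hy
    have hy1' : 1 ≤ y := Real.one_le_rpow hs1 h4.le
    have hlog : Real.log s ≤ 4 / ε * y := by
      have h5 := Real.log_le_rpow_div hs0.le h4
      have h6 : (s : ℝ) ^ (ε / 4) / (ε / 4) = 4 / ε * y := by
        rw [← hy]
        field_simp
      rwa [h6] at h5
    have hy4 : (s : ℝ) ^ ε = y ^ 4 := by
      rw [hy, ← Real.rpow_natCast, ← Real.rpow_mul hs0.le]
      congr 1
      push_cast
      ring
    have hlog0 : 0 ≤ Real.log s := Real.log_nonneg hs1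
    have e0 : 0 < 4 / ε := by positivity
    have y2 : y ≤ y ^ 2 := by nlinarith
    have y3 : y ^ 2 ≤ y ^ 3 := by nlinarith [pow_pos (by linarith : (0 : ℝ) < y) 2]
    have y4 : y ^ 3 ≤ y ^ 4 := by nlinarith [pow_pos (by linarith : (0 : ℝ) < y) 3]
    have a1 : 2 * y + 1 ≤ 3 * y := by linarith
    have a2 : 2 * y * Real.log s + 1 ≤ (8 / ε + 1) * y ^ 2 := by
      have : 2 * y * Real.log s ≤ 2 * y * (4 / ε * y) :=
        mul_le_mul_of_nonneg_left hlog (by linarith)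
      have e1 : 2 * y * (4 / ε * y) = 8 / ε * y ^ 2 := by ring
      nlinarith
    have a3 : (2 * y + 1) * (2 * y * Real.log s + 1) ≤ 3 * (8 / ε + 1) * y ^ 4 := by
      calc (2 * y + 1) * (2 * y * Real.log s + 1) ≤ (3 * y) * ((8 / ε + 1) * y ^ 2) := by
            apply mul_le_mul a1 a2 _ (by linarith)
            have : 0 ≤ 2 * y * Real.log s := by positivity
            linarith
        _ = 3 * (8 / ε + 1) * y ^ 3 := by ring
        _ ≤ 3 * (8 / ε + 1) * y ^ 4 := mul_le_mul_of_nonneg_left y4 (by positivity)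
    have a4 : 8 * y * (1 + Real.log s) ≤ 8 * (1 + 4 / ε) * y ^ 4 := by
      calc 8 * y * (1 + Real.log s) ≤ 8 * y * (y + 4 / ε * y) := by
            apply mul_le_mul_of_nonneg_left _ (by linarith)
            linarith
        _ = 8 * (1 + 4 / ε) * y ^ 2 := by ring
        _ ≤ 8 * (1 + 4 / ε) * y ^ 4 := mul_le_mul_of_nonneg_left (y3.trans y4) (by positivity)
    rw [hy4]
    have a5 : (0 : ℝ) ≤ s₀ * y ^ 4 := by positivity
    nlinarith
  · rw [not_le] at hss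
    obtain ⟨hd, hK⟩ := kills_spt F
    refine ⟨spt F, ?_, hd, hK⟩
    have h1 : ((spt F).card : ℝ) ≤ s₀ := by
      have : (spt F).card ≤ s₀ := by omega
      exact_mod_cast this
    have h2 : (0 : ℝ) ≤ 3 * (8 / ε + 1) + 8 * (1 + 4 / ε) := by positivity
    have h3 : (0 : ℝ) ≤ (s₀ : ℝ) := Nat.cast_nonneg _
    calc ((spt F).card : ℝ) ≤ s₀ := h1
      _ ≤ (3 * (8 / ε + 1) + 8 * (1 + 4 / ε) + s₀) * 1 := by linarith
      _ ≤ _ := mul_le_mul_of_nonneg_left hy1 (by linarith)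

end Pool.Agent.XA
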